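import Pool.Agent.Helper86.NB.St
import Pool.Agent.Helper86.ML.Ba

/-!
# Project NB (MP_cd9119_pr), module QEN: entropy and quotients
-/

set_option autoImplicit false

namespace Pool.Agent.Helper96.NB

open Filter Topology Pool.Agent.Helper86.NB Pool.Agent.Helper86.ML Pool.Agent.Helper67.Cour

variable {G : Type} [Group G]

/-- The term of the entropy of the image, written on the group. -/
noncomputable def qt (N : Subgroup G) (p : G → ℝ) (x : G) : ℝ :=
  p x * (-Real.log (quot N p (x : G ⧸ N)))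

theorem quot_le_one (N : Subgroup G) [N.Normal] {p : G → ℝ} (hq : Prob (quot N p)) (x : G) :
    quot N p (x : G ⧸ N) ≤ 1 := hq.le_one _

theorem qt_nonneg (N : Subgroup G) [N.Normal] {p : G → ℝ} (hp : Prob p) (hq : Prob (quot N p))
    (x : G) : 0 ≤ qt N p x := by
  refine mul_nonneg (hp.nonneg x) ?_
  have := Real.log_nonpos (hq.nonneg _) (quot_le_one N hq x)
  linarith

theorem qt_le (N : Subgroup G) [N.Normal] {p : G → ℝ} (hp : Prob p) (x : G) :
    qt N p x ≤ Real.negMulLog (p x) := by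
  unfold qt Real.negMulLog
  rcases (hp.nonneg x).eq_or_lt with h | h
  · rw [← h]; simp
  · have h1 : Real.log (p x) ≤ Real.log (quot N p (x : G ⧸ N)) :=
      Real.log_le_log h (le_quot N hp.nonneg hp.summable x)
    have h2 := mul_le_mul_of_nonneg_left h1 h.le
    linarith

theorem qt_summable (N : Subgroup G) [N.Normal] {p : G → ℝ} (hp : Prob p)
    (hq : Prob (quot N p)) (hf : FE p) : Summable (qt N p) :=
  Summable.of_nonneg_of_le (qt_nonneg N hp hq) (qt_le N hp) hf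

theorem qt_fib (N : Subgroup G) [N.Normal] (p : G → ℝ) (q : G ⧸ N) :
    ∑' x : Fib N q, qt N p x = Real.negMulLog (quot N p q) := by
  have h1 : ∀ x : Fib N q, qt N p x = p x * (-Real.log (quot N p q)) := by
    intro x
    unfold qt
    rw [x.2]
  rw [tsum_congr h1, tsum_mul_right]
  unfold Real.negMulLog
  have h2 : ∑' x : Fib N q, p x = quot N p q := rfl
  rw [h2]
  ring

theorem quot_FE (N : Subgroup G) [N.Normal] {p : G → ℝ} (hp : Prob p) (hq : Prob (quot N p))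
    (hf : FE p) : FE (quot N p) := by
  have h := summable_fib N (qt_summable N hp hq hf)
  unfold FE
  refine h.congr fun q => ?_
  exact qt_fib N p q

theorem tsum_qt (N : Subgroup G) [N.Normal] {p : G → ℝ} (hp : Prob p) (hq : Prob (quot N p))
    (hf : FE p) : ∑' x, qt N p x = Ent (quot N p) := by
  rw [tsum_fib N (qt_summable N hp hq hf)]
  exact tsum_congr fun q => qt_fib N p q

theorem quot_Ent_le (N : Subgroup G) [N.Normal] {p : G → ℝ} (hp : Prob p)
    (hq : Prob (quot N p)) (hf : FE p) : Ent (quot N p) ≤ Ent p := by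
  rw [← tsum_qt N hp hq hf]
  exact (qt_summable N hp hq hf).tsum_le_tsum (qt_le N hp) hf

theorem pair_inj {K₁ K₂ : Subgroup G} (h : K₁ ⊓ K₂ = ⊥) :
    Function.Injective fun x : G => ((x : G ⧸ K₁), (x : G ⧸ K₂)) := by
  intro x y hxy
  have h1 : (x : G ⧸ K₁) = y := congrArg Prod.fst hxy
  have h2 : (x : G ⧸ K₂) = y := congrArg Prod.snd hxy
  have h3 : x⁻¹ * y ∈ K₁ ⊓ K₂ := ⟨QuotientGroup.eq.1 h1, QuotientGroup.eq.1 h2⟩
  rw [h, Subgroup.mem_bot] at h3
  exact (inv_mul_eq_one.1 h3)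

theorem pair_bound (K₁ K₂ : Subgroup G) [K₁.Normal] [K₂.Normal] {p : G → ℝ} (hp : Prob p)
    (hq₁ : Prob (quot K₁ p)) (hq₂ : Prob (quot K₂ p)) (x : G) :
    Real.negMulLog (p x) ≤ qt K₁ p x + qt K₂ p x +
      (quot K₁ p (x : G ⧸ K₁) * quot K₂ p (x : G ⧸ K₂) - p x) := by
  unfold qt Real.negMulLog
  rcases (hp.nonneg x).eq_or_lt with h | h
  · have := mul_nonneg (hq₁.nonneg (x : G ⧸ K₁)) (hq₂.nonneg (x : G ⧸ K₂))
    rw [← h]
    simpa using this
  · have h1 : 0 < quot K₁ p (x : G ⧸ K₁) := h.trans_le (le_quot K₁ hp.nonneg hp.summable x)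
    have h2 : 0 < quot K₂ p (x : G ⧸ K₂) := h.trans_le (le_quot K₂ hp.nonneg hp.summable x)
    set a := quot K₁ p (x : G ⧸ K₁)
    set b := quot K₂ p (x : G ⧸ K₂)
    have h3 := Real.log_le_sub_one_of_pos (div_pos (mul_pos h1 h2) h)
    rw [Real.log_div (mul_pos h1 h2).ne' h.ne', Real.log_mul h1.ne' h2.ne'] at h3
    have h4 := mul_le_mul_of_nonneg_left h3 h.le
    have h5 : p x * (a * b / p x - 1) = a * b - p x := by
      field_simp
    rw [h5] at h4
    linarith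

theorem pair_sum (K₁ K₂ : Subgroup G) [K₁.Normal] [K₂.Normal] (h : K₁ ⊓ K₂ = ⊥) {p : G → ℝ}
    (hq₁ : Prob (quot K₁ p)) (hq₂ : Prob (quot K₂ p)) :
    (Summable fun x : G => quot K₁ p (x : G ⧸ K₁) * quot K₂ p (x : G ⧸ K₂)) ∧
      ∑' x : G, quot K₁ p (x : G ⧸ K₁) * quot K₂ p (x : G ⧸ K₂) ≤ 1 := by
  have h1 : Summable fun z : (G ⧸ K₁) × (G ⧸ K₂) => quot K₁ p z.1 * quot K₂ p z.2 :=
    hq₁.summable.mul_of_nonneg hq₂.summable (fun q => hq₁.nonneg q) (fun q => hq₂.nonneg q)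
  have h2 : ∑' z : (G ⧸ K₁) × (G ⧸ K₂), quot K₁ p z.1 * quot K₂ p z.2 = 1 := by
    rw [← hq₁.summable.tsum_mul_tsum hq₂.summable h1, hq₁.tsum_eq, hq₂.tsum_eq, mul_one]
  have h3 := h1.comp_injective (pair_inj h)
  have h4 := tsum_comp_le_tsum_of_inj h1
    (fun z => mul_nonneg (hq₁.nonneg z.1) (hq₂.nonneg z.2)) (pair_inj h)
  rw [h2] at h4
  exact ⟨h3, h4⟩

theorem hQEN (h1 : StQPW) : StQEN := by
  refine ⟨fun G _ N _ p hp hf => ?_, fun G _ K₁ K₂ _ _ p hK hp hf => ?_⟩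
  · have hq := (h1 G N).1 p hp
    exact ⟨quot_FE N hp hq hf, quot_Ent_le N hp hq hf⟩
  · have hq₁ := (h1 G K₁).1 p hp
    have hq₂ := (h1 G K₂).1 p hp
    obtain ⟨s1, s2⟩ := pair_sum K₁ K₂ hK hq₁ hq₂
    have t1 := qt_summable K₁ hp hq₁ hf
    have t2 := qt_summable K₂ hp hq₂ hf
    have t3 := s1.sub hp.summable
    have key : Ent p ≤ ∑' x, (qt K₁ p x + qt K₂ p x +
        (quot K₁ p (x : G ⧸ K₁) * quot K₂ p (x : G ⧸ K₂) - p x)) :=
      Summable.tsum_le_tsum (pair_bound K₁ K₂ hp hq₁ hq₂) hf ((t1.add t2).add t3)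
    rw [(t1.add t2).tsum_add t3, t1.tsum_add t2, s1.tsum_sub hp.summable, hp.tsum_eq,
      tsum_qt K₁ hp hq₁ hf, tsum_qt K₂ hp hq₂ hf] at key
    linarith

end Pool.Agent.Helper96.NB
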